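import Pool.Agent.W778.AG.Stmts

/-!
Choice of the constants: `S_CONST`.
-/

set_option autoImplicit false

open MeasureTheory Metric Set Filter Topology
open scoped ENNReal RealInnerProductSpace

namespace Pool.Agent.W646.AG

open Pool.Agent.W778.AG

theorem wf_sq {α φ : ℝ} : wf α φ ^ 2 = 1 - Real.sin α ^ 2 * Real.sin φ ^ 2 := by
  unfold wf
  rw [Real.sq_sqrt, mul_pow]
  rw [mul_pow]
  have h1 := Real.sin_sq_le_one α
  have h2 := Real.sin_sq_le_one φ
  nlinarith [sq_nonneg (Real.sin α), sq_nonneg (Real.sin φ)]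

theorem wf_nonneg (α φ : ℝ) : 0 ≤ wf α φ := Real.sqrt_nonneg _

theorem wf_le_one (α φ : ℝ) : wf α φ ≤ 1 := by
  unfold wf
  rw [Real.sqrt_le_one]
  nlinarith [sq_nonneg (Real.sin α * Real.sin φ)]

theorem one_sub_wf (α φ : ℝ) :
    Real.sin α ^ 2 * Real.sin φ ^ 2 / 4 ≤ 1 - wf α φ := by
  have h1 := wf_sq (α := α) (φ := φ)
  have h2 := wf_nonneg α φ
  have h3 := wf_le_one α φ
  nlinarith

theorem one_sub_sqrt_wf (α φ : ℝ) :
    Real.sin α ^ 2 * Real.sin φ ^ 2 / 4 ≤ 1 - Real.sqrt (wf α φ) := by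
  have h1 := wf_sq (α := α) (φ := φ)
  have h2 := wf_nonneg α φ
  have h3 := wf_le_one α φ
  have h4 := Real.sqrt_nonneg (wf α φ)
  have h5 := Real.sq_sqrt h2
  have h6 : Real.sqrt (wf α φ) ≤ 1 := Real.sqrt_le_one.2 h3
  have h7 : (1 - wf α φ) / 2 ≤ 1 - Real.sqrt (wf α φ) := by nlinarith
  have h8 : Real.sin α ^ 2 * Real.sin φ ^ 2 / 2 ≤ 1 - wf α φ := by nlinarith
  linarith

/-- the main pointwise bound -/
theorem gam_bound {n : ℕ} {κ R β S s w : ℝ} (hn : 4 ≤ n) (hκ : 0 < κ) (hR : 0 < R)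
    (hβ : 0 < β) (hS : 0 < S) (hs0 : 0 ≤ s) (hw : S * s ^ 2 / 4 ≤ 1 - w) :
    Gam n κ R β w * s ^ (n - 3) ≤
      (1 + β) ^ (3 * n) * (160 / (β * R * S)) ^ (κ * n) * s ^ ((n : ℝ) - 3 - 2 * κ * n) := by
  rcases hs0.eq_or_lt with h0 | h0
  · rw [← h0, zero_pow (by omega), mul_zero]
    positivity
  · unfold Gam
    have hn0 : (0 : ℝ) < n := by
      have : 0 < n := by omega
      exact_mod_cast this
    have hκn : 0 < κ * n := by positivity
    have hpos : 0 < S * s ^ 2 / 4 := by positivity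
    have h1w : 0 < 1 - w := by linarith
    have h1 : 40 / (β * R * (1 - w)) ≤ 160 / (β * R * S) * (s ^ 2)⁻¹ := by
      have e : 160 / (β * R * S) * (s ^ 2)⁻¹ = 40 / (β * R * (S * s ^ 2 / 4)) := by
        field_simp
        norm_num
      rw [e]
      apply div_le_div_of_nonneg_left (by norm_num) (by positivity)
      exact mul_le_mul_of_nonneg_left hw (by positivity)
    have h2 : (40 / (β * R * (1 - w))) ^ (κ * n) ≤
        (160 / (β * R * S)) ^ (κ * n) * s ^ (-(2 * κ * n)) := by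
      calc (40 / (β * R * (1 - w))) ^ (κ * n) ≤ (160 / (β * R * S) * (s ^ 2)⁻¹) ^ (κ * n) :=
            Real.rpow_le_rpow (by positivity) h1 hκn.le
        _ = (160 / (β * R * S)) ^ (κ * n) * s ^ (-(2 * κ * n)) := by
            rw [Real.mul_rpow (by positivity) (by positivity)]
            congr 1
            rw [Real.inv_rpow (by positivity), ← Real.rpow_natCast s 2, ← Real.rpow_mul h0.le,
              ← Real.rpow_neg h0.le]
            congr 1
            push_cast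
            ring
    have h3 : s ^ (-(2 * κ * n)) * s ^ (n - 3) = s ^ ((n : ℝ) - 3 - 2 * κ * n) := by
      rw [← Real.rpow_natCast s (n - 3), ← Real.rpow_add h0]
      congr 1
      rw [Nat.cast_sub (by omega)]
      push_cast
      ring
    calc (1 + β) ^ (3 * n) * (40 / (β * R * (1 - w))) ^ (κ * n) * s ^ (n - 3) ≤
        (1 + β) ^ (3 * n) * ((160 / (β * R * S)) ^ (κ * n) * s ^ (-(2 * κ * n))) * s ^ (n - 3) := by
          gcongr
      _ = (1 + β) ^ (3 * n) * (160 / (β * R * S)) ^ (κ * n) *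
          (s ^ (-(2 * κ * n)) * s ^ (n - 3)) := by ring
      _ = _ := by rw [h3]

theorem gam_nonneg {n : ℕ} {κ R β w : ℝ} (hR : 0 < R) (hβ : 0 < β) (hw : w ≤ 1) :
    0 ≤ Gam n κ R β w := by
  unfold Gam
  have : 0 ≤ 40 / (β * R * (1 - w)) := by
    have : 0 ≤ 1 - w := by linarith
    positivity
  positivity

theorem den_bound (m : ℕ) : 1 / ((m : ℝ) + 1) ≤ ∫ φ in (0 : ℝ)..Real.pi, Real.sin φ ^ m := by
  have hpi := Real.pi_pos
  have h1 : ∫ φ in (0 : ℝ)..(Real.pi / 2), Real.sin φ ^ m * Real.cos φ = 1 / ((m : ℝ) + 1) := by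
    have h := integral_sin_pow_mul_cos_pow_odd (a := 0) (b := Real.pi / 2) m 0
    simp only [mul_zero, zero_add, pow_one, pow_zero, mul_one, Real.sin_zero,
      Real.sin_pi_div_two] at h
    rw [h, integral_pow]
    simp
  have hint : ∀ a b : ℝ, IntervalIntegrable (fun φ => Real.sin φ ^ m) volume a b :=
    fun a b => (Real.continuous_sin.pow m).intervalIntegrable a b
  have h2 : ∫ φ in (0 : ℝ)..(Real.pi / 2), Real.sin φ ^ m * Real.cos φ ≤
      ∫ φ in (0 : ℝ)..(Real.pi / 2), Real.sin φ ^ m := by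
    apply intervalIntegral.integral_mono_on (by linarith)
    · exact ((Real.continuous_sin.pow m).mul Real.continuous_cos).intervalIntegrable _ _
    · exact hint _ _
    · intro φ hφ
      have hs : 0 ≤ Real.sin φ := Real.sin_nonneg_of_nonneg_of_le_pi hφ.1 (by linarith [hφ.2])
      have := Real.cos_le_one φ
      have := pow_nonneg hs m
      nlinarith
  have h3 : ∫ φ in (0 : ℝ)..(Real.pi / 2), Real.sin φ ^ m ≤
      ∫ φ in (0 : ℝ)..Real.pi, Real.sin φ ^ m := by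
    rw [← intervalIntegral.integral_add_adjacent_intervals (hint 0 (Real.pi / 2))
      (hint (Real.pi / 2) Real.pi)]
    have : 0 ≤ ∫ φ in (Real.pi / 2)..Real.pi, Real.sin φ ^ m := by
      apply intervalIntegral.integral_nonneg (by linarith)
      intro φ hφ
      exact pow_nonneg (Real.sin_nonneg_of_nonneg_of_le_pi (by linarith [hφ.1]) hφ.2) m
    linarith
  linarith

theorem LE_le {n : ℕ} (hn : 4 ≤ n) (f : ℝ → ℝ) (B : ℝ)
    (hf : IntervalIntegrable (fun φ => f φ * Real.sin φ ^ (n - 3)) volume 0 Real.pi)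
    (hB : ∀ φ ∈ Icc (0 : ℝ) Real.pi, f φ * Real.sin φ ^ (n - 3) ≤ B) (hB0 : 0 ≤ B) :
    LE n f ≤ Real.pi * B * n := by
  unfold Pool.Agent.W778.AG.LE
  have hpi := Real.pi_pos
  have h1 : ∫ φ in (0 : ℝ)..Real.pi, f φ * Real.sin φ ^ (n - 3) ≤ Real.pi * B := by
    have := intervalIntegral.integral_mono_on hpi.le hf
      (intervalIntegrable_const (c := B)) hB
    rw [intervalIntegral.integral_const, sub_zero, smul_eq_mul] at this
    exact this
  have h2 := den_bound (n - 3)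
  have hn0 : (0 : ℝ) < n := by
    have : 0 < n := by omega
    exact_mod_cast this
  have h3 : 1 / (n : ℝ) ≤ ∫ φ in (0 : ℝ)..Real.pi, Real.sin φ ^ (n - 3) := by
    refine le_trans ?_ h2
    apply one_div_le_one_div_of_le (by positivity)
    have : (n - 3) + 1 ≤ n := by omega
    exact_mod_cast this
  have hden : 0 < ∫ φ in (0 : ℝ)..Real.pi, Real.sin φ ^ (n - 3) :=
    (by positivity : (0 : ℝ) < 1 / n).trans_le h3
  rw [div_le_iff₀ hden]
  calc ∫ φ in (0 : ℝ)..Real.pi, f φ * Real.sin φ ^ (n - 3) ≤ Real.pi * B := h1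
    _ = Real.pi * B * n * (1 / n) := by field_simp
    _ ≤ Real.pi * B * n * ∫ φ in (0 : ℝ)..Real.pi, Real.sin φ ^ (n - 3) := by
        apply mul_le_mul_of_nonneg_left h3
        positivity

theorem measurable_wf (α : ℝ) : Measurable (wf α) := by
  unfold wf
  fun_prop

theorem measurable_Gam (n : ℕ) (κ R β : ℝ) : Measurable (Gam n κ R β) := by
  unfold Gam
  fun_prop

theorem const : S_CONST := by
  intro α hα0 hαπ hcos
  set S : ℝ := Real.sin α ^ 2 with hSdef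
  set c : ℝ := Real.cos α ^ 2 with hcdef
  have hS : 0 < S := pow_pos (Real.sin_pos_of_pos_of_lt_pi hα0 hαπ) 2
  have hS1 : S ≤ 1 := Real.sin_sq_le_one α
  have hc : 0 < c := by rw [hcdef]; positivity
  set ρ : ℝ := Real.sqrt (1 - S / 2) with hρdef
  set σ : ℝ := Real.sqrt (1 / 2) with hσdef
  have hρ0 : 0 < ρ := Real.sqrt_pos.2 (by linarith)
  have hρ1 : ρ < 1 := by
    rw [hρdef, ← Real.sqrt_one]
    exact Real.sqrt_lt_sqrt (by linarith) (by linarith)
  have hσ0 : 0 < σ := Real.sqrt_pos.2 (by norm_num)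
  have hσ1 : σ < 1 := by
    rw [hσdef, ← Real.sqrt_one]
    exact Real.sqrt_lt_sqrt (by norm_num) (by norm_num)
  set θ : ℝ := max (ρ ^ (c / 8)) (σ ^ ((3 : ℝ) / 4)) with hθdef
  have hθ0 : 0 < θ := lt_max_of_lt_left (Real.rpow_pos_of_pos hρ0 _)
  have hθ1 : θ < 1 := max_lt (Real.rpow_lt_one hρ0.le hρ1 (by positivity))
    (Real.rpow_lt_one hσ0.le hσ1 (by norm_num))
  -- choice of η = β = R
  obtain ⟨η, hη, hη0, hη1⟩ : ∃ η : ℝ, (1 + η) ^ 4 * θ < 1 ∧ 0 < η ∧ η ≤ 1 := by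
    have h1 : Tendsto (fun η : ℝ => (1 + η) ^ 4 * θ) (𝓝[>] 0) (𝓝 ((1 + 0) ^ 4 * θ)) := by
      apply Tendsto.mono_left _ nhdsWithin_le_nhds
      exact (by fun_prop : Continuous fun η : ℝ => (1 + η) ^ 4 * θ).tendsto 0
    have h2 : (1 + 0 : ℝ) ^ 4 * θ < 1 := by simpa using hθ1
    have h3 := h1.eventually_lt_const h2
    have h4 : ∀ᶠ η : ℝ in 𝓝[>] 0, η ∈ Ioc (0 : ℝ) 1 := Ioc_mem_nhdsGT one_pos
    obtain ⟨η, h5, h6⟩ := (h3.and h4).exists
    exact ⟨η, h5, h6.1, h6.2⟩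
  set A : ℝ := 160 / (η * η * S) with hAdef
  have hA0 : 0 < A := by rw [hAdef]; positivity
  obtain ⟨κ, hκ1, hκ2, hκ0, hκ8⟩ : ∃ κ : ℝ, (1 + η) ^ 4 * θ * A ^ κ < 1 ∧
      (10 / η) ^ κ * ((1 + η) / 10) < 1 ∧ 0 < κ ∧ κ ≤ 1 / 8 := by
    have h1 : Tendsto (fun κ : ℝ => (1 + η) ^ 4 * θ * A ^ κ) (𝓝[>] 0)
        (𝓝 ((1 + η) ^ 4 * θ * A ^ (0 : ℝ))) := by
      apply Tendsto.mono_left _ nhdsWithin_le_nhds
      exact ((Real.continuousAt_const_rpow hA0.ne').const_mul _)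
    rw [Real.rpow_zero, mul_one] at h1
    have h2 := h1.eventually_lt_const hη
    have h1' : Tendsto (fun κ : ℝ => (10 / η) ^ κ * ((1 + η) / 10)) (𝓝[>] 0)
        (𝓝 ((10 / η) ^ (0 : ℝ) * ((1 + η) / 10))) := by
      apply Tendsto.mono_left _ nhdsWithin_le_nhds
      have h10 : (10 / η : ℝ) ≠ 0 := by positivity
      exact ((Real.continuousAt_const_rpow h10).mul_const _)
    rw [Real.rpow_zero, one_mul] at h1'
    have h2' := h1'.eventually_lt_const (show (1 + η) / 10 < 1 by linarith)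
    have h4 : ∀ᶠ κ : ℝ in 𝓝[>] 0, κ ∈ Ioc (0 : ℝ) (1 / 8) := Ioc_mem_nhdsGT (by norm_num)
    obtain ⟨κ, h5, h6, h7⟩ := (h2.and (h2'.and h4)).exists
    exact ⟨κ, h5, h6, h7.1, h7.2⟩
  set a : ℝ := (1 + η) ^ 4 * θ * A ^ κ with hadef
  have ha0 : 0 < a := by rw [hadef]; positivity
  set K : ℝ := ρ ^ (-(c / 4 + 1)) + σ ^ (-3 : ℝ) with hKdef
  have hK0 : 0 < K := by rw [hKdef]; positivity
  refine ⟨κ, η, η, hκ0, by linarith, hη0, hη1, hη0, hη1, ?_⟩
  -- large n
  have hev1 : ∀ᶠ n : ℕ in atTop, ((10 / η) ^ κ * ((1 + η) / 10)) ^ n ≤ 1 / 4 := by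
    have h := tendsto_pow_atTop_nhds_zero_of_lt_one (by positivity) hκ2
    exact (h.eventually_lt_const (by norm_num : (0 : ℝ) < 1 / 4)).mono fun n hn => hn.le
  have hev2 : ∀ᶠ n : ℕ in atTop, 4 * Real.pi * K * (n * a ^ n) ≤ 1 / 2 := by
    have h := tendsto_self_mul_const_pow_of_lt_one ha0.le hκ1
    have h' := h.const_mul (4 * Real.pi * K)
    rw [mul_zero] at h'
    exact (h'.eventually_lt_const (by norm_num : (0 : ℝ) < 1 / 2)).mono fun n hn => hn.le
  obtain ⟨n₀, hn₀⟩ := eventually_atTop.1 (hev1.and (hev2.and (eventually_ge_atTop 4)))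
  refine ⟨n₀, fun n hnn => ?_⟩
  obtain ⟨hn1, hn2, hn4⟩ := hn₀ n hnn
  have hn0 : (0 : ℝ) < n := by
    have : 0 < n := by omega
    exact_mod_cast this
  have hn4' : (4 : ℝ) ≤ n := by exact_mod_cast hn4
  have hexp : 0 ≤ (n : ℝ) - 3 - 2 * κ * n := by nlinarith
  have hexp' : (3 : ℝ) / 4 * n - 3 ≤ (n : ℝ) - 3 - 2 * κ * n := by nlinarith
  have hsin : ∀ φ ∈ Icc (0 : ℝ) Real.pi, 0 ≤ Real.sin φ :=
    fun φ hφ => Real.sin_nonneg_of_nonneg_of_le_pi hφ.1 hφ.2
  have hAn0 : 0 ≤ (1 + η) ^ (3 * n) * A ^ (κ * n) := by positivity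
  have hb1 : ∀ φ ∈ Icc (0 : ℝ) Real.pi, ∀ w : ℝ, S * Real.sin φ ^ 2 / 4 ≤ 1 - w →
      Gam n κ η η w * Real.sin φ ^ (n - 3) ≤
        (1 + η) ^ (3 * n) * A ^ (κ * n) * Real.sin φ ^ ((n : ℝ) - 3 - 2 * κ * n) := by
    intro φ hφ w hw
    have := gam_bound (κ := κ) (R := η) (β := η) hn4 hκ0 hη0 hη0 hS (hsin φ hφ) hw
    exact this
  refine ⟨by omega, ?_, ?_, ?_⟩
  · have e1 : (η / 10) ^ ((1 - κ) * n) = ((η / 10) ^ (1 - κ)) ^ n := by
      rw [Real.rpow_mul (by positivity), Real.rpow_natCast]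
    have e2 : (η / 10) ^ (1 - κ) = (10 / η) ^ κ * ((1 + η) / 10) * (η / (1 + η)) := by
      rw [Real.rpow_sub (by positivity), Real.rpow_one]
      have e3 : (10 / η : ℝ) ^ κ = ((η / 10) ^ κ)⁻¹ := by
        rw [← Real.inv_rpow (by positivity), inv_div]
      rw [e3]
      field_simp
    rw [e1, e2, mul_pow]
    exact mul_le_mul_of_nonneg_right hn1 (by positivity)
  · apply IntervalIntegrable.mono_fun' (intervalIntegrable_const
      (c := (1 + η) ^ (3 * n) * A ^ (κ * n)))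
    · apply Measurable.aestronglyMeasurable
      exact ((measurable_Gam n κ η η).comp (measurable_wf α)).mul
        (Real.measurable_sin.pow_const _)
    · rw [uIoc_of_le Real.pi_pos.le]
      filter_upwards [ae_restrict_mem measurableSet_Ioc] with φ hφ
      have hφ' : φ ∈ Icc (0 : ℝ) Real.pi := Ioc_subset_Icc_self hφ
      have h1 := hb1 φ hφ' (wf α φ) (one_sub_wf α φ)
      rw [Real.norm_eq_abs, abs_of_nonneg (mul_nonneg (gam_nonneg hη0 hη0 (wf_le_one α φ))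
        (pow_nonneg (hsin φ hφ') _))]
      refine h1.trans ?_
      have h2 : Real.sin φ ^ ((n : ℝ) - 3 - 2 * κ * n) ≤ 1 :=
        Real.rpow_le_one (hsin φ hφ') (Real.sin_le_one φ) hexp
      calc _ ≤ (1 + η) ^ (3 * n) * A ^ (κ * n) * 1 := mul_le_mul_of_nonneg_left h2 hAn0
        _ = _ := mul_one _
  · set q : ℕ := ⌊((n : ℝ) - 2) * c / 8⌋₊ with hqdef
    have hqn : 0 ≤ ((n : ℝ) - 2) * c / 8 := by
      have : 0 ≤ (n : ℝ) - 2 := by linarith
      positivity
    have hq1 : (q : ℝ) ≤ ((n : ℝ) - 2) * c / 8 := Nat.floor_le hqn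
    have hq2 : ((n : ℝ) - 2) * c / 8 - 1 ≤ q := (Nat.sub_one_lt_floor _).le
    -- pointwise bound
    set B0 : ℝ := ρ ^ q + σ ^ ((3 : ℝ) / 4 * n - 3) with hB0def
    have hB00 : 0 ≤ B0 := by rw [hB0def]; positivity
    have hpt : ∀ φ ∈ Icc (0 : ℝ) Real.pi,
        wf α φ ^ q * Real.sin φ ^ ((n : ℝ) - 3 - 2 * κ * n) ≤ B0 := by
      intro φ hφ
      have hs0 := hsin φ hφ
      have hs1 := Real.sin_le_one φ
      have hw0 := wf_nonneg α φ
      have hw1 := wf_le_one α φ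
      have hr1 : Real.sin φ ^ ((n : ℝ) - 3 - 2 * κ * n) ≤ 1 := Real.rpow_le_one hs0 hs1 hexp
      have hr0 : 0 ≤ Real.sin φ ^ ((n : ℝ) - 3 - 2 * κ * n) := Real.rpow_nonneg hs0 _
      by_cases hh : 1 / 2 ≤ Real.sin φ ^ 2
      · have hwρ : wf α φ ≤ ρ := by
          rw [hρdef]
          apply Real.le_sqrt_of_sq_le
          rw [wf_sq]
          nlinarith
        have h1 : wf α φ ^ q ≤ ρ ^ q := pow_le_pow_left₀ hw0 hwρ q
        have h2 : 0 ≤ σ ^ ((3 : ℝ) / 4 * n - 3) := by positivity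
        have h3 : 0 ≤ ρ ^ q := by positivity
        calc wf α φ ^ q * Real.sin φ ^ ((n : ℝ) - 3 - 2 * κ * n) ≤ ρ ^ q * 1 :=
              mul_le_mul h1 hr1 hr0 h3
          _ ≤ B0 := by rw [hB0def]; linarith
      · push Not at hh
        have hsσ : Real.sin φ ≤ σ := by
          rw [hσdef]
          exact Real.le_sqrt_of_sq_le hh.le
        have h1 : Real.sin φ ^ ((n : ℝ) - 3 - 2 * κ * n) ≤ σ ^ ((3 : ℝ) / 4 * n - 3) :=
          (Real.rpow_le_rpow hs0 hsσ hexp).trans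
            (Real.rpow_le_rpow_of_exponent_ge hσ0 hσ1.le hexp')
        have h2 : wf α φ ^ q ≤ 1 := pow_le_one₀ hw0 hw1
        have h3 : 0 ≤ ρ ^ q := by positivity
        calc wf α φ ^ q * Real.sin φ ^ ((n : ℝ) - 3 - 2 * κ * n) ≤
              1 * σ ^ ((3 : ℝ) / 4 * n - 3) := mul_le_mul h2 h1 hr0 zero_le_one
          _ ≤ B0 := by rw [hB0def]; linarith
    have hfb : ∀ φ ∈ Icc (0 : ℝ) Real.pi,
        wf α φ ^ q * Gam n κ η η (Real.sqrt (wf α φ)) * Real.sin φ ^ (n - 3) ≤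
          (1 + η) ^ (3 * n) * A ^ (κ * n) * B0 := by
      intro φ hφ
      have h1 := hb1 φ hφ _ (one_sub_sqrt_wf α φ)
      calc wf α φ ^ q * Gam n κ η η (Real.sqrt (wf α φ)) * Real.sin φ ^ (n - 3) =
            wf α φ ^ q * (Gam n κ η η (Real.sqrt (wf α φ)) * Real.sin φ ^ (n - 3)) := by ring
        _ ≤ wf α φ ^ q * ((1 + η) ^ (3 * n) * A ^ (κ * n) *
              Real.sin φ ^ ((n : ℝ) - 3 - 2 * κ * n)) :=
            mul_le_mul_of_nonneg_left h1 (pow_nonneg (wf_nonneg α φ) q)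
        _ = (1 + η) ^ (3 * n) * A ^ (κ * n) *
              (wf α φ ^ q * Real.sin φ ^ ((n : ℝ) - 3 - 2 * κ * n)) := by ring
        _ ≤ _ := mul_le_mul_of_nonneg_left (hpt φ hφ) hAn0
    have hint : IntervalIntegrable (fun φ => wf α φ ^ q * Gam n κ η η (Real.sqrt (wf α φ)) *
        Real.sin φ ^ (n - 3)) volume 0 Real.pi := by
      apply IntervalIntegrable.mono_fun' (intervalIntegrable_const
        (c := (1 + η) ^ (3 * n) * A ^ (κ * n) * B0))
      · apply Measurable.aestronglyMeasurable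
        exact (((measurable_wf α).pow_const q).mul ((measurable_Gam n κ η η).comp
          (Real.continuous_sqrt.measurable.comp (measurable_wf α)))).mul
          (Real.measurable_sin.pow_const _)
      · rw [uIoc_of_le Real.pi_pos.le]
        filter_upwards [ae_restrict_mem measurableSet_Ioc] with φ hφ
        have hφ' : φ ∈ Icc (0 : ℝ) Real.pi := Ioc_subset_Icc_self hφ
        rw [Real.norm_eq_abs, abs_of_nonneg (mul_nonneg (mul_nonneg (pow_nonneg (wf_nonneg α φ) q)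
          (gam_nonneg hη0 hη0 (Real.sqrt_le_one.2 (wf_le_one α φ))))
          (pow_nonneg (hsin φ hφ') _))]
        exact hfb φ hφ'
    refine ⟨q, by linarith, hint, ?_⟩
    have hLE := LE_le hn4 (fun φ => wf α φ ^ q * Gam n κ η η (Real.sqrt (wf α φ)))
      ((1 + η) ^ (3 * n) * A ^ (κ * n) * B0) hint hfb (mul_nonneg hAn0 hB00)
    -- B0 ≤ K θ ^ n
    have hBK : B0 ≤ K * θ ^ n := by
      have h1 : ρ ^ q ≤ ρ ^ (-(c / 4 + 1)) * θ ^ n := by
        calc ρ ^ q = ρ ^ (q : ℝ) := (Real.rpow_natCast ρ q).symm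
          _ ≤ ρ ^ (((n : ℝ) - 2) * c / 8 - 1) :=
              Real.rpow_le_rpow_of_exponent_ge hρ0 hρ1.le hq2
          _ = ρ ^ (-(c / 4 + 1)) * (ρ ^ (c / 8)) ^ n := by
              rw [← Real.rpow_natCast (ρ ^ (c / 8)) n, ← Real.rpow_mul hρ0.le,
                ← Real.rpow_add hρ0]
              congr 1
              ring
          _ ≤ ρ ^ (-(c / 4 + 1)) * θ ^ n := by
              apply mul_le_mul_of_nonneg_left _ (by positivity)
              exact pow_le_pow_left₀ (by positivity) (le_max_left _ _) n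
      have h2 : σ ^ ((3 : ℝ) / 4 * n - 3) ≤ σ ^ (-3 : ℝ) * θ ^ n := by
        calc σ ^ ((3 : ℝ) / 4 * n - 3) = σ ^ (-3 : ℝ) * (σ ^ ((3 : ℝ) / 4)) ^ n := by
              rw [← Real.rpow_natCast (σ ^ ((3 : ℝ) / 4)) n, ← Real.rpow_mul hσ0.le,
                ← Real.rpow_add hσ0]
              congr 1
              ring
          _ ≤ σ ^ (-3 : ℝ) * θ ^ n := by
              apply mul_le_mul_of_nonneg_left _ (by positivity)
              exact pow_le_pow_left₀ (by positivity) (le_max_right _ _) n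
      rw [hB0def, hKdef, add_mul]
      exact add_le_add h1 h2
    have hpow : (1 + η) ^ (3 * n) * A ^ (κ * n) * (1 + η) ^ n * θ ^ n = a ^ n := by
      rw [hadef, mul_pow, mul_pow, ← Real.rpow_natCast (A ^ κ) n, ← Real.rpow_mul hA0.le,
        ← pow_mul]
      have : (1 + η) ^ (4 * n) = (1 + η) ^ (3 * n) * (1 + η) ^ n := by
        rw [← pow_add]
        congr 1
        ring
      rw [this]
      ring
    calc LE n (fun φ => wf α φ ^ q * Gam n κ η η (Real.sqrt (wf α φ))) * (4 * (1 + η) ^ n)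
        ≤ Real.pi * ((1 + η) ^ (3 * n) * A ^ (κ * n) * B0) * n * (4 * (1 + η) ^ n) :=
          mul_le_mul_of_nonneg_right hLE (by positivity)
      _ ≤ Real.pi * ((1 + η) ^ (3 * n) * A ^ (κ * n) * (K * θ ^ n)) * n *
            (4 * (1 + η) ^ n) := by
          have hpi := Real.pi_pos
          gcongr
      _ = 4 * Real.pi * K * (n * ((1 + η) ^ (3 * n) * A ^ (κ * n) * (1 + η) ^ n * θ ^ n)) := by
          ring
      _ = 4 * Real.pi * K * (n * a ^ n) := by rw [hpow]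
      _ ≤ 1 / 2 := hn2

end Pool.Agent.W646.AG
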