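import Pool.Agent.W646.AG.Basic

/-!
The general step from the normalised step: `S_B → S_BB`.
-/

set_option autoImplicit false

open MeasureTheory Metric Set
open scoped ENNReal RealInnerProductSpace

namespace Pool.Agent.W646.AG

open Pool.Agent.W778.AG

variable {n : ℕ}

theorem dir_smul {c : ℝ} (hc : 0 < c) (v : En n) : dir (c • v) = dir v := by
  unfold dir
  rw [norm_smul, Real.norm_eq_abs, abs_of_pos hc, mul_inv, smul_smul, mul_comm, ← mul_assoc,
    mul_inv_cancel₀ hc.ne', one_mul]

/-- `x ↦ l⁻¹ (x - z)` -/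
noncomputable def fdn (l : ℝ) (z : En n) (x : En n) : En n := l⁻¹ • (x - z)

/-- `x ↦ z + l x` -/
noncomputable def fup (l : ℝ) (z : En n) (x : En n) : En n := z + l • x

theorem measurable_fdn (l : ℝ) (z : En n) : Measurable (fdn l z) := by
  unfold fdn
  fun_prop

theorem measurable_fup (l : ℝ) (z : En n) : Measurable (fup l z) := by
  unfold fup
  fun_prop

theorem fup_fdn {l : ℝ} (hl : 0 < l) (z x : En n) : fup l z (fdn l z x) = x := by
  unfold fup fdn
  rw [smul_smul, mul_inv_cancel₀ hl.ne', one_smul]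
  abel

theorem dist_fup {l : ℝ} (hl : 0 < l) (z x y : En n) :
    dist (fup l z x) (fup l z y) = l * dist x y := by
  unfold fup
  rw [dist_add_left, dist_smul₀, Real.norm_eq_abs, abs_of_pos hl]

theorem dist_fdn {l : ℝ} (hl : 0 < l) (z x y : En n) :
    dist (fdn l z x) y = l⁻¹ * dist x (fup l z y) := by
  have h := dist_fup hl z (fdn l z x) y
  rw [fup_fdn hl] at h
  rw [h, ← mul_assoc, inv_mul_cancel₀ hl.ne', one_mul]

theorem preimage_closedBall {l : ℝ} (hl : 0 < l) (z x : En n) (r : ℝ) :
    fdn l z ⁻¹' closedBall x r = closedBall (fup l z x) (l * r) := by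
  ext w
  rw [mem_preimage, mem_closedBall, mem_closedBall, dist_fdn hl, inv_mul_le_iff₀ hl]

theorem preimage_ball {l : ℝ} (hl : 0 < l) (z x : En n) (r : ℝ) :
    fdn l z ⁻¹' ball x r = ball (fup l z x) (l * r) := by
  ext w
  rw [mem_preimage, mem_ball, mem_ball, dist_fdn hl, inv_mul_lt_iff₀ hl]

theorem preimage_fup_ball {l : ℝ} (hl : 0 < l) (z x : En n) (r : ℝ) :
    fup l z ⁻¹' ball (fup l z x) (l * r) = ball x r := by
  ext w
  rw [mem_preimage, mem_ball, mem_ball, dist_fup hl, mul_lt_mul_iff_right₀ hl]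

theorem map_fup_map_fdn {l : ℝ} (hl : 0 < l) (z : En n) (μ : Measure (En n)) :
    (μ.map (fdn l z)).map (fup l z) = μ := by
  rw [Measure.map_map (measurable_fup l z) (measurable_fdn l z)]
  have : fup l z ∘ fdn l z = id := by
    funext x
    exact fup_fdn hl z x
  rw [this, Measure.map_id]

theorem scale (hB : S_B) : S_BB := by
  intro n κ R β τ C ε ν ψ y₀ hn hκ0 hκ1 hR0 hR1 hβ0 hβ1 hτ hC hε hRκ hfin hgr hy₀ hψ hψo
  set s : ℝ := (1 - κ) * n with hs
  set μ : Measure (En n) := ν.restrict (ball y₀ (ε / 2)) with hμ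
  have hμle : μ ≤ ν := Measure.restrict_le_self
  have hpow : ∀ r : ℝ, 0 < r → 0 < r ^ s := fun r hr => Real.rpow_pos_of_pos hr s
  have hpowE : ∀ r : ℝ, 0 < r → ENNReal.ofReal (r ^ s) ≠ 0 := fun r hr => by
    simpa using hpow r hr
  -- the maximal density
  let M : ℝ≥0∞ := ⨆ p : En n × {r : ℝ // 0 < r},
    μ (closedBall p.1 p.2) / ENNReal.ofReal ((p.2 : ℝ) ^ s)
  have hMle : M ≤ ENNReal.ofReal C := by
    refine iSup_le fun p => ?_
    apply ENNReal.div_le_of_le_mul
    rw [← ENNReal.ofReal_mul hC.le]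
    exact (hμle _).trans (hgr _ _ p.2.2)
  have hMtop : M ≠ ∞ := (hMle.trans_lt ENNReal.ofReal_lt_top).ne
  have hMb : ∀ x : En n, ∀ r : ℝ, 0 < r → μ (closedBall x r) ≤ M * ENNReal.ofReal (r ^ s) := by
    intro x r hr
    have h1 : μ (closedBall x r) / ENNReal.ofReal (r ^ s) ≤ M :=
      le_iSup (fun p : En n × {r : ℝ // 0 < r} =>
        μ (closedBall p.1 p.2) / ENNReal.ofReal ((p.2 : ℝ) ^ s)) (x, ⟨r, hr⟩)
    exact (ENNReal.div_le_iff_le_mul (Or.inl (hpowE r hr)) (Or.inl ENNReal.ofReal_ne_top)).1 h1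
  have hMpos : M ≠ 0 := by
    intro h0
    have h1 := hMb y₀ ε hε
    rw [h0, zero_mul] at h1
    have h2 : μ (ball y₀ (ε / 2)) = ν (ball y₀ (ε / 2)) := by
      rw [hμ, Measure.restrict_apply_self]
    have h3 : μ (ball y₀ (ε / 2)) ≤ μ (closedBall y₀ ε) :=
      measure_mono ((ball_subset_ball (by linarith)).trans ball_subset_closedBall)
    rw [h2] at h3
    exact absurd (h3.trans h1) (not_le.2 (hy₀ _ (by linarith)))
  have hhalf : M / 2 < M := ENNReal.half_lt_self hMpos hMtop
  obtain ⟨⟨z, l, hl⟩, hzl⟩ := lt_iSup_iff.1 hhalf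
  simp only at hzl
  have hlE := hpowE l hl
  have hMl : M * ENNReal.ofReal (l ^ s) ≠ 0 := mul_ne_zero hMpos hlE
  have hMl' : M * ENNReal.ofReal (l ^ s) ≠ ∞ := ENNReal.mul_ne_top hMtop ENNReal.ofReal_ne_top
  set c : ℝ≥0∞ := (M * ENNReal.ofReal (l ^ s))⁻¹ with hc
  have hctop : c ≠ ∞ := ENNReal.inv_ne_top.2 hMl
  have hc0 : c ≠ 0 := ENNReal.inv_ne_zero.2 hMl'
  set ν' : Measure (En n) := c • μ.map (fdn l z) with hν'
  have hfμ : IsFiniteMeasure μ := by rw [hμ]; infer_instance
  have hν'b : ∀ x : En n, ∀ r : ℝ, ν' (closedBall x r) =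
      c * μ (closedBall (fup l z x) (l * r)) := by
    intro x r
    rw [hν', Measure.smul_apply, smul_eq_mul, Measure.map_apply (measurable_fdn l z)
      measurableSet_closedBall, preimage_closedBall hl]
  have hfinν' : IsFiniteMeasure ν' := by
    refine ⟨?_⟩
    rw [hν', Measure.smul_apply, smul_eq_mul]
    exact ENNReal.mul_lt_top hctop.lt_top (measure_lt_top _ _)
  obtain ⟨y', ω', a', D, hsupp, hwit, hineq⟩ := hB n κ R β τ ν' ψ hn hκ0 hκ1 hR0 hR1 hβ0 hβ1 hτ hRκ
    hfinν' (by
      intro x r hr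
      rw [hν'b]
      have h1 := hMb (fup l z x) (l * r) (mul_pos hl hr)
      rw [Real.mul_rpow hl.le hr.le, ENNReal.ofReal_mul (hpow l hl).le, ← mul_assoc] at h1
      calc c * μ (closedBall (fup l z x) (l * r)) ≤
          c * (M * ENNReal.ofReal (l ^ s) * ENNReal.ofReal (r ^ s)) := mul_le_mul' le_rfl h1
        _ = ENNReal.ofReal (r ^ s) := by
            rw [← mul_assoc, hc, ENNReal.inv_mul_cancel hMl hMl', one_mul])
    (by
      rw [hν'b]
      have e : fup l z 0 = z := by unfold fup; simp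
      rw [e, mul_one]
      have h1 : M / 2 * ENNReal.ofReal (l ^ s) ≤ μ (closedBall z l) :=
        (ENNReal.le_div_iff_mul_le (Or.inl hlE) (Or.inl ENNReal.ofReal_ne_top)).1 hzl.le
      calc ENNReal.ofReal (1 / 2) = c * (M / 2 * ENNReal.ofReal (l ^ s)) := by
            have e2 : M / 2 * ENNReal.ofReal (l ^ s) = M * ENNReal.ofReal (l ^ s) * 2⁻¹ := by
              rw [ENNReal.div_eq_inv_mul]
              ring
            rw [e2, ← mul_assoc, hc, ENNReal.inv_mul_cancel hMl hMl', one_mul, one_div,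
              ENNReal.ofReal_inv_of_pos two_pos, ENNReal.ofReal_ofNat]
        _ ≤ c * μ (closedBall z l) := mul_le_mul' le_rfl h1) hψ hψo
  obtain ⟨hprob, hac, ha', hball, hD, hgrow⟩ := hwit
  have hν'ball : ∀ δ : ℝ, 0 < δ → 0 < μ (ball (fup l z y') δ) := by
    intro δ hδ
    have h1 := hsupp (δ / l) (div_pos hδ hl)
    rw [hν', Measure.smul_apply, smul_eq_mul, Measure.map_apply (measurable_fdn l z)
      measurableSet_ball, preimage_ball hl, mul_div_cancel₀ _ hl.ne'] at h1
    exact pos_iff_ne_zero.2 (fun h0 => by rw [h0, mul_zero] at h1; exact lt_irrefl _ h1)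
  refine ⟨fup l z y', ω'.map (fup l z), l * a', D, ?_, fun δ hδ => (hν'ball δ hδ).trans_le (hμle _),
    ⟨?_, ?_, mul_pos hl ha', ?_, hD, ?_⟩, ?_⟩
  · have h1 := hν'ball (ε / 2) (by linarith)
    rw [hμ, Measure.restrict_apply measurableSet_ball] at h1
    have h2 : (ball (fup l z y') (ε / 2) ∩ ball y₀ (ε / 2)).Nonempty := by
      by_contra hcon
      rw [not_nonempty_iff_eq_empty] at hcon
      rw [hcon, measure_empty] at h1
      exact lt_irrefl _ h1
    obtain ⟨w, hw1, hw2⟩ := h2
    rw [mem_ball] at hw1 hw2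
    calc dist (fup l z y') y₀ ≤ dist (fup l z y') w + dist w y₀ := dist_triangle _ _ _
      _ < ε / 2 + ε / 2 := by
          rw [dist_comm (fup l z y') w]
          exact add_lt_add hw1 hw2
      _ = ε := by ring
  · exact Measure.isProbabilityMeasure_map (measurable_fup l z).aemeasurable
  · have h1 : ω'.map (fup l z) ≪ ν'.map (fup l z) := hac.map (measurable_fup l z)
    rw [hν', Measure.map_smul, map_fup_map_fdn hl] at h1
    exact h1.trans ((Measure.smul_absolutelyContinuous).trans hμle.absolutelyContinuous)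
  · rw [Measure.map_apply (measurable_fup l z) measurableSet_ball, preimage_fup_ball hl]
    exact hball
  · intro Y hY r hr v hv
    have hY' : dist (fdn l z Y) y' ≤ a' / 2 := by
      rw [dist_fdn hl, inv_mul_le_iff₀ hl]
      linarith
    have h1 := hgrow (fdn l z Y) hY' r hr v hv
    have hm : Measurable (fun x : En n => pk n r ⟪v, dir (x - Y)⟫) := by
      have h1 : Measurable (fun x : En n => x - Y) := by fun_prop
      have h2 : Measurable (fun z : En n => pk n r ⟪v, dir z⟫) :=
        (measurable_pk n r).comp (measurable_const.inner measurable_dir)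
      have h3 := h2.comp h1
      simpa only [Function.comp_def] using h3
    rw [integral_map (measurable_fup l z).aemeasurable hm.aestronglyMeasurable]
    have e : ∀ x : En n, dir (fup l z x - Y) = dir (x - fdn l z Y) := by
      intro x
      have : fup l z x - Y = l • (x - fdn l z Y) := by
        conv_lhs => rw [← fup_fdn hl z Y]
        unfold fup
        rw [smul_sub]
        abel
      rw [this, dir_smul hl]
    simp only [e]
    exact h1
  · have hm : Measurable (fun x : En n => ψ (dir (x - fup l z y'))) := by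
      have h1 : Measurable (fun x : En n => x - fup l z y') := by fun_prop
      have h2 := hψ.measurable.comp (measurable_dir.comp h1)
      simpa only [Function.comp_def] using h2
    rw [integral_map (measurable_fup l z).aemeasurable hm.aestronglyMeasurable]
    have e : ∀ x : En n, dir (fup l z x - fup l z y') = dir (x - y') := by
      intro x
      have : fup l z x - fup l z y' = l • (x - y') := by
        unfold fup
        rw [smul_sub]
        abel
      rw [this, dir_smul hl]
    simp only [e]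
    exact hineq

end Pool.Agent.W646.AG
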