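import Pool.Agent.W646.AG.Growth

/-!
Lemma B, the normalised step: `S_PAIR → S_MEAN → S_B`.
-/

set_option autoImplicit false

open MeasureTheory Metric Set
open scoped ENNReal RealInnerProductSpace

namespace Pool.Agent.W646.AG

open Pool.Agent.W778.AG

variable {n : ℕ}

theorem HH_ne_top (R : ℝ) (p : En n × En n) : HH n R p ≠ ∞ :=
  ((HH_le_one p).trans_lt ENNReal.one_lt_top).ne

theorem HH_toReal_le (R : ℝ) (p : En n × En n) : (HH n R p).toReal ≤ 1 := by
  have := ENNReal.toReal_mono ENNReal.one_ne_top (HH_le_one (R := R) p)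
  simpa using this

/-- points of the support have full measure -/
theorem compl_support_null (μ : Measure (En n)) :
    μ {y | ∀ ε : ℝ, 0 < ε → 0 < μ (ball y ε)}ᶜ = 0 := by
  apply measure_null_of_locally_null
  intro y hy
  rw [mem_compl_iff] at hy
  have hy' : ∃ ε : ℝ, 0 < ε ∧ μ (ball y ε) = 0 := by
    by_contra hcon
    push Not at hcon
    exact hy (fun ε hε => pos_iff_ne_zero.2 (hcon ε hε))
  obtain ⟨ε, hε, h0⟩ := hy'
  exact ⟨ball y ε, mem_nhdsWithin_of_mem_nhds (ball_mem_nhds y hε), h0⟩

theorem exists_bound {ψ : En n → ℝ} (hψ : Continuous ψ) :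
    ∃ C : ℝ, 0 ≤ C ∧ ∀ v : En n, |ψ (dir v)| ≤ C := by
  obtain ⟨C, hC⟩ := (isCompact_closedBall (0 : En n) 1).exists_bound_of_continuousOn
    hψ.continuousOn
  refine ⟨C, ?_, ?_⟩
  · have := hC 0 (by simp)
    exact (norm_nonneg _).trans this
  · intro v
    have := hC (dir v) (by rw [mem_closedBall, dist_zero_right]; exact norm_dir_le v)
    rwa [Real.norm_eq_abs] at this

section

variable (μ : Measure (En n)) (R : ℝ) (ψ : En n → ℝ)

/-- degree -/
noncomputable def deg (y : En n) : ℝ := ∫ x, (HH n R (x, y)).toReal ∂μ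

/-- weighted average of `ψ` -/
noncomputable def II (y : En n) : ℝ := ∫ x, ψ (dir (x - y)) * (HH n R (x, y)).toReal ∂μ

theorem deg_nonneg (y : En n) : 0 ≤ deg μ R y :=
  integral_nonneg fun _ => ENNReal.toReal_nonneg

variable [IsFiniteMeasure μ]

theorem lintegral_HH (y : En n) :
    ∫⁻ x, HH n R (x, y) ∂μ = ENNReal.ofReal (deg μ R y) := by
  unfold deg
  rw [integral_toReal (measurable_HH_left R y).aemeasurable
    (Filter.Eventually.of_forall fun x => (HH_ne_top R _).lt_top), ENNReal.ofReal_toReal]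
  have : ∫⁻ x, HH n R (x, y) ∂μ ≤ ∫⁻ _, 1 ∂μ := lintegral_mono fun x => HH_le_one _
  rw [lintegral_one] at this
  exact (this.trans_lt (measure_lt_top μ univ)).ne

theorem integrable_HH_left (y : En n) : Integrable (fun x => (HH n R (x, y)).toReal) μ := by
  apply Integrable.of_bound (measurable_HH_left R y).ennreal_toReal.aestronglyMeasurable 1
  filter_upwards with x
  rw [Real.norm_eq_abs, abs_of_nonneg ENNReal.toReal_nonneg]
  exact HH_toReal_le R _

theorem abs_II_le {C : ℝ} (hC : ∀ v : En n, |ψ (dir v)| ≤ C) (y : En n) :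
    |II μ R ψ y| ≤ C * deg μ R y := by
  unfold II deg
  rw [← integral_const_mul, ← Real.norm_eq_abs]
  refine (norm_integral_le_integral_norm _).trans ?_
  apply integral_mono_of_nonneg
  · filter_upwards with x using norm_nonneg _
  · exact (integrable_HH_left μ R y).const_mul C
  · filter_upwards with x
    rw [norm_mul, Real.norm_eq_abs, Real.norm_eq_abs, abs_of_nonneg ENNReal.toReal_nonneg]
    exact mul_le_mul_of_nonneg_right (hC _) ENNReal.toReal_nonneg

theorem measurable_F (hψ : Continuous ψ) : Measurable (fun p : En n × En n =>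
    ψ (dir (p.1 - p.2)) * (HH n R p).toReal) := by
  have h1 : Measurable (fun p : En n × En n => p.1 - p.2) := by fun_prop
  have h2 := hψ.measurable.comp (measurable_dir.comp h1)
  simp only [Function.comp_def] at h2
  exact h2.mul (measurable_HH R).ennreal_toReal

theorem integrable_F (hψ : Continuous ψ) : Integrable (fun p : En n × En n =>
    ψ (dir (p.1 - p.2)) * (HH n R p).toReal) (μ.prod μ) := by
  obtain ⟨C, hC0, hC⟩ := exists_bound hψ
  apply Integrable.of_bound (measurable_F R ψ hψ).aestronglyMeasurable C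
  filter_upwards with p
  rw [norm_mul, Real.norm_eq_abs, Real.norm_eq_abs, abs_of_nonneg ENNReal.toReal_nonneg]
  calc |ψ (dir (p.1 - p.2))| * (HH n R p).toReal ≤ C * 1 :=
        mul_le_mul (hC _) (HH_toReal_le R _) ENNReal.toReal_nonneg hC0
    _ = C := mul_one C

theorem integrable_HH : Integrable (fun p : En n × En n => (HH n R p).toReal) (μ.prod μ) := by
  apply Integrable.of_bound (measurable_HH R).ennreal_toReal.aestronglyMeasurable 1
  filter_upwards with x
  rw [Real.norm_eq_abs, abs_of_nonneg ENNReal.toReal_nonneg]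
  exact HH_toReal_le R _

theorem integral_F (hψo : ∀ u, ψ (-u) = -ψ u) :
    ∫ p : En n × En n, ψ (dir (p.1 - p.2)) * (HH n R p).toReal ∂(μ.prod μ) = 0 := by
  have h1 := integral_prod_swap (μ := μ) (ν := μ)
    (fun p : En n × En n => ψ (dir (p.1 - p.2)) * (HH n R p).toReal)
  have h2 : ∀ p : En n × En n, ψ (dir (p.swap.1 - p.swap.2)) * (HH n R p.swap).toReal =
      -(ψ (dir (p.1 - p.2)) * (HH n R p).toReal) := by
    rintro ⟨x, y⟩
    simp only [Prod.swap]
    rw [HH_swap R y x, ← neg_sub x y, dir_neg, hψo]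
    ring
  simp only [h2] at h1
  rw [integral_neg] at h1
  linarith

theorem exists_vertex (hR : 0 < R) {τ : ℝ} (hτ : 0 < τ) (hm : 1 / 2 ≤ μ.real univ)
    (hZ : 1 / 2 * (μ.real univ) ^ 2 * (R / (1 + R)) ^ n ≤
      ∫ p, (HH n R p).toReal ∂(μ.prod μ))
    (hψ : Continuous ψ) (hψo : ∀ u, ψ (-u) = -ψ u) :
    ∃ y : En n, (∀ ε : ℝ, 0 < ε → 0 < μ (ball y ε)) ∧ 0 < deg μ R y ∧
      τ * R ^ n - II μ R ψ y ≤ τ * (4 * (1 + R) ^ n) * deg μ R y := by
  by_contra hcon
  push Not at hcon
  obtain ⟨C, hC0, hC⟩ := exists_bound hψ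
  have hpos : ∀ y : En n, (∀ ε : ℝ, 0 < ε → 0 < μ (ball y ε)) →
      0 < τ * R ^ n - II μ R ψ y - τ * (4 * (1 + R) ^ n) * deg μ R y := by
    intro y hy
    rcases (deg_nonneg μ R y).eq_or_lt with h0 | h0
    · have h1 := abs_II_le μ R ψ hC y
      rw [← h0, mul_zero] at h1
      have h2 : II μ R ψ y = 0 := by
        have := abs_nonneg (II μ R ψ y)
        exact abs_eq_zero.1 (le_antisymm h1 this)
      rw [h2, ← h0]
      have : 0 < τ * R ^ n := by positivity
      linarith
    · have := hcon y hy h0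
      linarith
  have hIint : Integrable (fun y => II μ R ψ y) μ := (integrable_F μ R ψ hψ).integral_prod_right
  have hDint : Integrable (fun y => deg μ R y) μ := (integrable_HH μ R).integral_prod_right
  have hI0 : ∫ y, II μ R ψ y ∂μ = 0 := by
    have := integral_prod_symm _ (integrable_F μ R ψ hψ)
    rw [integral_F μ R ψ hψo] at this
    exact this.symm
  have hD0 : ∫ y, deg μ R y ∂μ = ∫ p, (HH n R p).toReal ∂(μ.prod μ) :=
    (integral_prod_symm _ (integrable_HH μ R)).symm
  have hfint : Integrable (fun y => τ * R ^ n - II μ R ψ y -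
      τ * (4 * (1 + R) ^ n) * deg μ R y) μ :=
    ((integrable_const _).sub hIint).sub (hDint.const_mul _)
  have hf : ∫ y, (τ * R ^ n - II μ R ψ y - τ * (4 * (1 + R) ^ n) * deg μ R y) ∂μ =
      τ * R ^ n * μ.real univ - τ * (4 * (1 + R) ^ n) *
        ∫ p, (HH n R p).toReal ∂(μ.prod μ) := by
    have g1 : Integrable (fun y => τ * R ^ n - II μ R ψ y) μ := (integrable_const _).sub hIint
    have g2 : Integrable (fun y => τ * (4 * (1 + R) ^ n) * deg μ R y) μ := hDint.const_mul _
    have g3 : Integrable (fun _ : En n => τ * R ^ n) μ := integrable_const _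
    have g4 : ∫ _ : En n, τ * R ^ n ∂μ = μ.real univ * (τ * R ^ n) := by
      rw [integral_const, smul_eq_mul]
    have g5 : ∫ y, τ * (4 * (1 + R) ^ n) * deg μ R y ∂μ =
        τ * (4 * (1 + R) ^ n) * ∫ y, deg μ R y ∂μ := integral_const_mul _ _
    rw [integral_sub g1 g2, integral_sub g3 hIint, hI0, g4, g5, hD0]
    ring
  have hae : ∀ᵐ y ∂μ, 0 < τ * R ^ n - II μ R ψ y - τ * (4 * (1 + R) ^ n) * deg μ R y := by
    have : ∀ᵐ y ∂μ, y ∈ {y | ∀ ε : ℝ, 0 < ε → 0 < μ (ball y ε)} := by
      rw [ae_iff]
      exact compl_support_null μ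
    filter_upwards [this] with y hy using hpos y hy
  have hfpos : 0 < ∫ y, (τ * R ^ n - II μ R ψ y - τ * (4 * (1 + R) ^ n) * deg μ R y) ∂μ := by
    rw [integral_pos_iff_support_of_nonneg_ae (hae.mono fun y hy => hy.le) hfint]
    have h1 : μ (Function.support fun y => τ * R ^ n - II μ R ψ y -
        τ * (4 * (1 + R) ^ n) * deg μ R y) = μ univ := by
      apply measure_congr
      rw [Filter.eventuallyEq_univ]
      filter_upwards [hae] with y hy
      exact hy.ne'
    rw [h1]
    rw [pos_iff_ne_zero]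
    intro h0
    rw [measureReal_def, h0] at hm
    norm_num at hm
  rw [hf] at hfpos
  set m := μ.real univ
  set Z := ∫ p, (HH n R p).toReal ∂(μ.prod μ)
  have h1 : τ * (4 * (1 + R) ^ n) * (1 / 2 * m ^ 2 * (R / (1 + R)) ^ n) ≤
      τ * (4 * (1 + R) ^ n) * Z := mul_le_mul_of_nonneg_left hZ (by positivity)
  have h2 : τ * (4 * (1 + R) ^ n) * (1 / 2 * m ^ 2 * (R / (1 + R)) ^ n) =
      τ * R ^ n * (2 * m ^ 2) := by
    rw [div_pow]
    field_simp
    ring
  rw [h2] at h1
  have h3 : τ * R ^ n * m ≤ τ * R ^ n * (2 * m ^ 2) := by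
    apply mul_le_mul_of_nonneg_left _ (by positivity)
    nlinarith
  linarith

end

theorem stepB (hpair : S_PAIR) (hmean : S_MEAN) : S_B := by
  intro n κ R β τ ν ψ hn hκ0 hκ1 hR0 hR1 hβ0 hβ1 hτ hRκ hfin hgr hm hψ hψo
  have hμle : ν.restrict (closedBall (0 : En n) 1) ≤ ν := Measure.restrict_le_self
  have hμ0 : ν.restrict (closedBall (0 : En n) 1) (closedBall 0 1)ᶜ = 0 := by
    rw [Measure.restrict_apply measurableSet_closedBall.compl]
    simp
  have hμm : ENNReal.ofReal (1 / 2) ≤ ν.restrict (closedBall (0 : En n) 1) (closedBall 0 1) := by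
    rw [Measure.restrict_apply_self]
    exact hm
  have hμac : ν.restrict (closedBall (0 : En n) 1) ≪ ν := Measure.restrict_le_self.absolutelyContinuous
  generalize ν.restrict (closedBall (0 : En n) 1) = μ at hμle hμ0 hμm hμac
  have : IsFiniteMeasure μ := ⟨(hμle univ).trans_lt (measure_lt_top ν univ)⟩
  have hμgr : ∀ x, ∀ r : ℝ, 0 < r → μ (closedBall x r) ≤ ENNReal.ofReal (r ^ ((1 - κ) * n)) :=
    fun x r hr => (hμle _).trans (hgr x r hr)
  have hP := hpair n κ R μ (by omega) hκ0 hκ1 hR0 hR1 hRκ inferInstance hμ0 hμgr hμm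
  -- mass
  have hmr : 1 / 2 ≤ μ.real univ := by
    rw [measureReal_def]
    have h1 : ENNReal.ofReal (1 / 2) ≤ μ univ := hμm.trans (measure_mono (subset_univ _))
    exact (ENNReal.ofReal_le_iff_le_toReal (measure_ne_top _ _)).1 h1
  -- total degree
  have hH : ∫⁻ p, HH n R p ∂(μ.prod μ) = (∫⁻ x, ∫⁻ y in (ball x (R / 10))ᶜ,
      volume (ball x R ∩ ball y R) ∂μ ∂μ) / volume (ball (0 : En n) R) := by
    rw [lintegral_prod _ (measurable_HH R).aemeasurable, ENNReal.div_eq_inv_mul,
      ← lintegral_const_mul' _ _ (ENNReal.inv_ne_top.2 (vol_pos hR0 _))]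
    apply lintegral_congr
    intro x
    rw [← lintegral_const_mul' _ _ (ENNReal.inv_ne_top.2 (vol_pos hR0 _)),
      ← lintegral_indicator measurableSet_ball.compl]
    apply lintegral_congr
    intro y
    unfold HH
    by_cases h : R / 10 ≤ dist x y
    · rw [indicator_of_mem]
      · simp only [if_pos h]
        rw [ENNReal.div_eq_inv_mul]
      · rw [mem_compl_iff, mem_ball, not_lt, dist_comm]
        exact h
    · rw [indicator_of_notMem]
      · simp only [if_neg h]
      · rw [mem_compl_iff, mem_ball, not_not, dist_comm]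
        exact not_le.1 h
  have hZ : 1 / 2 * (μ.real univ) ^ 2 * (R / (1 + R)) ^ n ≤
      ∫ p, (HH n R p).toReal ∂(μ.prod μ) := by
    rw [integral_toReal (measurable_HH R).aemeasurable
      (Filter.Eventually.of_forall fun x => (HH_ne_top R _).lt_top)]
    have hfinH : ∫⁻ p, HH n R p ∂(μ.prod μ) ≠ ∞ := by
      have : ∫⁻ p, HH n R p ∂(μ.prod μ) ≤ ∫⁻ _, 1 ∂(μ.prod μ) :=
        lintegral_mono fun x => HH_le_one _
      rw [lintegral_one] at this
      exact (this.trans_lt (measure_lt_top _ univ)).ne
    rw [← ENNReal.ofReal_le_iff_le_toReal hfinH, hH]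
    rw [ENNReal.le_div_iff_mul_le (Or.inl (vol_pos hR0 _)) (Or.inl (vol_fin _ _))]
    exact hP
  obtain ⟨y, hysupp, hdeg, hy⟩ := exists_vertex μ R ψ hR0 hτ hmr hZ hψ hψo
  have hdE : ENNReal.ofReal (deg μ R y) ≠ 0 := by simpa using hdeg
  have hdens : Measurable (fun x : En n => HH n R (x, y) / ENNReal.ofReal (deg μ R y)) :=
    (measurable_HH_left R y).div_const _
  refine ⟨y, μ.withDensity (fun x => HH n R (x, y) / ENNReal.ofReal (deg μ R y)),
    β * R / 20, R ^ n / deg μ R y, fun ε hε => (hysupp ε hε).trans_le (hμle _), ?_, ?_⟩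
  · refine ⟨⟨?_⟩, ?_, by positivity, ?_, by positivity, ?_⟩
    · rw [withDensity_apply _ MeasurableSet.univ, Measure.restrict_univ]
      simp only [ENNReal.div_eq_inv_mul]
      rw [lintegral_const_mul' _ _ (ENNReal.inv_ne_top.2 hdE), lintegral_HH]
      exact ENNReal.inv_mul_cancel hdE ENNReal.ofReal_ne_top
    · exact (withDensity_absolutelyContinuous _ _).trans hμac
    · rw [withDensity_apply _ measurableSet_ball, setLIntegral_eq_zero_iff measurableSet_ball
        hdens]
      filter_upwards with x hx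
      have : HH n R (x, y) = 0 := by
        unfold HH
        rw [if_neg]
        rw [mem_ball] at hx
        simp only [not_le]
        have : β * R ≤ R := by nlinarith
        linarith
      rw [this, ENNReal.zero_div]
    · intro y' hy' r hr v hv
      have hg := growth hmean hn hR0 hβ0 hβ1 hr μ hμgr y y' v hv hy'
      rw [integral_eq_lintegral_of_nonneg_ae]
      rotate_left
      · filter_upwards with x using pk_nonneg n hr.1.le hr.2 _
      · apply Measurable.aestronglyMeasurable
        have h1 : Measurable (fun x : En n => x - y') := by fun_prop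
        have h2 : Measurable (fun z : En n => pk n r ⟪v, dir z⟫) :=
          (measurable_pk n r).comp (measurable_const.inner measurable_dir)
        have h3 := h2.comp h1
        simpa only [Function.comp_def] using h3
      apply ENNReal.toReal_le_of_le_ofReal
      · have h1r : 0 < 1 - r := by linarith [hr.2]
        unfold Gam
        have h40 : 0 ≤ 40 / (β * R * (1 - r)) := by positivity
        positivity
      · rw [lintegral_withDensity_eq_lintegral_mul₀ hdens.aemeasurable]
        · have e : ∀ x : En n, ((fun x => HH n R (x, y) / ENNReal.ofReal (deg μ R y)) *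
              fun x => ENNReal.ofReal (pk n r ⟪v, dir (x - y')⟫)) x =
              (ENNReal.ofReal (deg μ R y))⁻¹ *
                (HH n R (x, y) * ENNReal.ofReal (pk n r ⟪v, dir (x - y')⟫)) := by
            intro x
            simp only [Pi.mul_apply]
            rw [ENNReal.div_eq_inv_mul, mul_assoc]
          simp only [e]
          rw [lintegral_const_mul' _ _ (ENNReal.inv_ne_top.2 hdE)]
          refine (mul_le_mul' le_rfl hg).trans (le_of_eq ?_)
          rw [← ENNReal.ofReal_inv_of_pos hdeg, ← ENNReal.ofReal_mul (by positivity)]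
          congr 1
          unfold Gam
          have h1r : 0 < 1 - r := by linarith [hr.2]
          have hpos : 0 < β * (1 - r) * R / 40 := by have := hβ0; positivity
          have hexp : (1 - κ) * (n : ℝ) - n = -(κ * n) := by ring
          rw [hexp, Real.rpow_neg hpos.le, ← Real.inv_rpow hpos.le]
          have hbase : (β * (1 - r) * R / 40)⁻¹ = 40 / (β * R * (1 - r)) := by
            rw [inv_div]
            congr 1
            ring
          rw [hbase]
          field_simp
        · apply Measurable.aemeasurable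
          have h1 : Measurable (fun x : En n => x - y') := by fun_prop
          have h2 := (measurable_pk_dir r v).comp h1
          simpa only [Function.comp_def] using h2
  · rw [integral_withDensity_eq_integral_toReal_smul hdens
      (Filter.Eventually.of_forall fun x => ENNReal.div_lt_top (HH_ne_top R _) hdE)]
    have e : ∀ x : En n, (HH n R (x, y) / ENNReal.ofReal (deg μ R y)).toReal •
        ψ (dir (x - y)) = (deg μ R y)⁻¹ * (ψ (dir (x - y)) * (HH n R (x, y)).toReal) := by
      intro x
      rw [ENNReal.toReal_div, ENNReal.toReal_ofReal hdeg.le, smul_eq_mul]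
      ring
    simp only [e]
    rw [integral_const_mul]
    change τ * (R ^ n / deg μ R y) - (deg μ R y)⁻¹ * II μ R ψ y ≤ _
    have : τ * (R ^ n / deg μ R y) - (deg μ R y)⁻¹ * II μ R ψ y =
        (τ * R ^ n - II μ R ψ y) / deg μ R y := by
      field_simp
    rw [this, div_le_iff₀ hdeg]
    exact hy

end Pool.Agent.W646.AG
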