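import Pool.Agent.W778.AG.Stmts

/-!
Elementary facts on directions and on the Poisson kernel.
-/

set_option autoImplicit false

open MeasureTheory Metric Set
open scoped ENNReal RealInnerProductSpace

namespace Pool.Agent.W646.AG

open Pool.Agent.W778.AG

variable {n : ℕ}

theorem norm_dir {v : En n} (hv : v ≠ 0) : ‖dir v‖ = 1 := by
  unfold dir
  rw [norm_smul, norm_inv, norm_norm, inv_mul_cancel₀ (norm_ne_zero_iff.2 hv)]

theorem norm_dir_le (v : En n) : ‖dir v‖ ≤ 1 := by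
  by_cases hv : v = 0
  · subst hv
    simp [dir]
  · exact (norm_dir hv).le

theorem dir_neg (v : En n) : dir (-v) = -dir v := by
  unfold dir
  rw [norm_neg, smul_neg]

theorem measurable_dir : Measurable (dir : En n → En n) := by
  unfold dir
  fun_prop

theorem dir_sub_dir_le {a b : En n} (ha : a ≠ 0) (hb : b ≠ 0) :
    ‖dir a - dir b‖ ≤ 2 * ‖a - b‖ / ‖a‖ := by
  have ha' : 0 < ‖a‖ := norm_pos_iff.2 ha
  have hb' : 0 < ‖b‖ := norm_pos_iff.2 hb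
  have h1 : dir a - dir b = ‖a‖⁻¹ • (a - b) + (‖a‖⁻¹ - ‖b‖⁻¹) • b := by
    unfold dir
    rw [smul_sub, sub_smul]
    abel
  rw [h1]
  refine (norm_add_le _ _).trans ?_
  rw [norm_smul, norm_smul, norm_inv, norm_norm, Real.norm_eq_abs]
  have h2 : |‖a‖⁻¹ - ‖b‖⁻¹| * ‖b‖ ≤ ‖a - b‖ / ‖a‖ := by
    have h3 : ‖a‖⁻¹ - ‖b‖⁻¹ = (‖b‖ - ‖a‖) / (‖a‖ * ‖b‖) := by
      field_simp
    rw [h3, abs_div, abs_of_pos (mul_pos ha' hb'), div_mul_eq_mul_div, div_le_div_iff₀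
      (mul_pos ha' hb') ha']
    have h4 : |‖b‖ - ‖a‖| ≤ ‖a - b‖ := by
      rw [norm_sub_rev]
      exact abs_norm_sub_norm_le b a
    nlinarith [mul_pos ha' hb']
  have h5 : ‖a‖⁻¹ * ‖a - b‖ = ‖a - b‖ / ‖a‖ := by
    rw [div_eq_mul_inv, mul_comm]
  rw [h5]
  calc ‖a - b‖ / ‖a‖ + |‖a‖⁻¹ - ‖b‖⁻¹| * ‖b‖ ≤ ‖a - b‖ / ‖a‖ + ‖a - b‖ / ‖a‖ := by gcongr
    _ = 2 * ‖a - b‖ / ‖a‖ := by ring

theorem measurable_pk (n : ℕ) (r : ℝ) : Measurable (pk n r) := by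
  unfold pk
  fun_prop

theorem pk_nonneg (n : ℕ) {r : ℝ} (h0 : 0 ≤ r) (h1 : r < 1) (t : ℝ) : 0 ≤ pk n r t := by
  unfold pk
  apply div_nonneg
  · nlinarith
  · positivity

theorem pk_eq {r : ℝ} {v u : En n} (hv : ‖v‖ = 1) (hu : ‖u‖ = 1) :
    pk n r ⟪v, u⟫ = (1 - r ^ 2) / ‖v - r • u‖ ^ n := by
  unfold pk
  have h : 1 - 2 * r * ⟪v, u⟫ + r ^ 2 = ‖v - r • u‖ ^ 2 := by
    rw [norm_sub_sq_real, norm_smul, hv, hu, inner_smul_right, Real.norm_eq_abs, mul_one, sq_abs]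
    ring
  rw [h, Real.sqrt_sq (norm_nonneg _)]

theorem norm_sub_ge {r : ℝ} (h0 : 0 ≤ r) {v u : En n} (hv : ‖v‖ = 1) (hu : ‖u‖ = 1) :
    1 - r ≤ ‖v - r • u‖ := by
  have := norm_sub_norm_le v (r • u)
  rw [norm_smul, hv, hu, Real.norm_eq_abs, abs_of_nonneg h0, mul_one] at this
  exact this

/-- Harnack type comparison of the Poisson kernel at nearby directions -/
theorem pk_le {r β : ℝ} (h0 : 0 ≤ r) (h1 : r < 1) (hβ : 0 ≤ β) {v u u' : En n} (hv : ‖v‖ = 1)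
    (hu : ‖u‖ = 1) (hu' : ‖u'‖ = 1) (huu : ‖u - u'‖ ≤ β * (1 - r)) :
    pk n r ⟪v, u⟫ ≤ (1 + β) ^ n * pk n r ⟪v, u'⟫ := by
  rw [pk_eq hv hu, pk_eq hv hu']
  have g := norm_sub_ge h0 hv hu
  have g' := norm_sub_ge h0 hv hu'
  have hpos : 0 < ‖v - r • u‖ := by linarith
  have hpos' : 0 < ‖v - r • u'‖ := by linarith
  have hle : ‖v - r • u'‖ ≤ (1 + β) * ‖v - r • u‖ := by
    have e : v - r • u' = (v - r • u) + r • (u - u') := by
      rw [smul_sub]; abel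
    have h2 : ‖v - r • u'‖ ≤ ‖v - r • u‖ + r * ‖u - u'‖ := by
      rw [e]
      refine (norm_add_le _ _).trans ?_
      rw [norm_smul, Real.norm_eq_abs, abs_of_nonneg h0]
    have h3 : r * ‖u - u'‖ ≤ 1 * (β * (1 - r)) := by
      apply mul_le_mul h1.le huu (norm_nonneg _) zero_le_one
    nlinarith
  have hnum : 0 ≤ 1 - r ^ 2 := by nlinarith
  rw [mul_div_assoc', div_le_div_iff₀ (by positivity) (by positivity)]
  have h4 : ‖v - r • u'‖ ^ n ≤ (1 + β) ^ n * ‖v - r • u‖ ^ n := by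
    rw [← mul_pow]
    exact pow_le_pow_left₀ (norm_nonneg _) hle n
  nlinarith [mul_le_mul_of_nonneg_left h4 hnum]

/-- the volume of the intersection of two balls of the same radius is a function of the distance -/
theorem vol_inter_radial (ρ : ℝ) {z w : En n} (h : ‖z‖ = ‖w‖) :
    volume (ball z ρ ∩ ball 0 ρ) = volume (ball w ρ ∩ ball (0 : En n) ρ) := by
  by_cases hzw : z = w
  · rw [hzw]
  let L : En n ≃ₗᵢ[ℝ] En n := Submodule.reflection (ℝ ∙ (z - w))ᗮ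
  have hL : L z = w := Submodule.reflection_sub h
  have hpre : L ⁻¹' (ball w ρ ∩ ball 0 ρ) = ball z ρ ∩ ball 0 ρ := by
    ext x
    simp only [mem_preimage, mem_inter_iff, mem_ball]
    rw [← hL, L.dist_map]
    have : dist (L x) 0 = dist x 0 := by
      rw [dist_zero_right, dist_zero_right, L.norm_map]
    rw [this]
  rw [← hpre]
  exact (L.measurePreserving).measure_preimage
    (measurableSet_ball.inter measurableSet_ball).nullMeasurableSet

end Pool.Agent.W646.AG
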