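import Pool.Agent.W646.AG.Basic

/-!
The growth inequality in Lemma B.
-/

set_option autoImplicit false

open MeasureTheory Metric Set
open scoped ENNReal RealInnerProductSpace

namespace Pool.Agent.W646.AG

open Pool.Agent.W778.AG

variable {n : ℕ}

theorem measurable_inter (ρ : ℝ) :
    Measurable (fun p : En n × En n => volume (ball p.1 ρ ∩ ball p.2 ρ)) := by
  have hs : MeasurableSet {q : (En n × En n) × En n | dist q.2 q.1.1 < ρ ∧ dist q.2 q.1.2 < ρ} := by
    apply IsOpen.measurableSet
    apply IsOpen.and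
    · exact isOpen_lt (by fun_prop) (by fun_prop)
    · exact isOpen_lt (by fun_prop) (by fun_prop)
  exact measurable_measure_prodMk_left (ν := (volume : Measure (En n))) hs

/-- normalised volume of the intersection of two balls, `0` for close points -/
noncomputable def HH (n : ℕ) (R : ℝ) (p : En n × En n) : ℝ≥0∞ :=
  if R / 10 ≤ dist p.1 p.2 then
    volume (ball p.1 R ∩ ball p.2 R) / volume (ball (0 : En n) R) else 0

theorem measurable_HH (R : ℝ) : Measurable (HH n R) := by
  unfold HH
  apply Measurable.ite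
  · exact measurableSet_le measurable_const measurable_dist
  · exact (measurable_inter R).div_const _
  · exact measurable_const

theorem HH_swap (R : ℝ) (x y : En n) : HH n R (x, y) = HH n R (y, x) := by
  unfold HH
  simp only [dist_comm x y, inter_comm (ball x R) (ball y R)]

theorem vol_ball {ρ : ℝ} (hρ : 0 < ρ) (x : En n) :
    volume (ball x ρ) = ENNReal.ofReal (ρ ^ n) * volume (ball (0 : En n) 1) := by
  rw [Measure.addHaar_ball_of_pos _ _ hρ, finrank_euclideanSpace_fin]

theorem vol_ball_eq (ρ : ℝ) (x : En n) :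
    volume (ball x ρ) = volume (ball (0 : En n) ρ) :=
  Measure.addHaar_ball_center _ _ _

theorem vol_pos {ρ : ℝ} (hρ : 0 < ρ) (x : En n) : volume (ball x ρ) ≠ 0 :=
  (measure_ball_pos _ _ hρ).ne'

theorem vol_fin (ρ : ℝ) (x : En n) : volume (ball x ρ) ≠ ∞ :=
  measure_ball_lt_top.ne

theorem HH_le_one {R : ℝ} (p : En n × En n) : HH n R p ≤ 1 := by
  unfold HH
  split_ifs
  · apply ENNReal.div_le_of_le_mul
    rw [one_mul]
    exact (measure_mono inter_subset_left).trans (vol_ball_eq R p.1).le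
  · exact zero_le_one

/-- total mass of the autocorrelation of a ball -/
theorem lintegral_inter (ρ : ℝ) :
    ∫⁻ z : En n, volume (ball z ρ ∩ ball 0 ρ) =
      volume (ball (0 : En n) ρ) * volume (ball (0 : En n) ρ) := by
  have hs : MeasurableSet {q : En n × En n | dist q.2 q.1 < ρ ∧ dist q.2 0 < ρ} := by
    apply IsOpen.measurableSet
    apply IsOpen.and
    · exact isOpen_lt (by fun_prop) (by fun_prop)
    · exact isOpen_lt (by fun_prop) (by fun_prop)
  have h1 := Measure.prod_apply (μ := (volume : Measure (En n))) (ν := (volume : Measure (En n))) hs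
  have h2 := Measure.prod_apply_symm (μ := (volume : Measure (En n)))
    (ν := (volume : Measure (En n))) hs
  rw [h1] at h2
  have e1 : ∀ z : En n, Prod.mk z ⁻¹' {q : En n × En n | dist q.2 q.1 < ρ ∧ dist q.2 0 < ρ} =
      ball z ρ ∩ ball 0 ρ := by
    intro z
    ext w
    simp
  have e2 : ∀ w : En n, volume ((fun z => (z, w)) ⁻¹' {q : En n × En n | dist q.2 q.1 < ρ ∧
      dist q.2 0 < ρ}) = (ball (0 : En n) ρ).indicator (fun _ => volume (ball (0 : En n) ρ)) w := by
    intro w
    by_cases hw : w ∈ ball (0 : En n) ρ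
    · rw [indicator_of_mem hw]
      have : ((fun z => (z, w)) ⁻¹' {q : En n × En n | dist q.2 q.1 < ρ ∧ dist q.2 0 < ρ}) =
          ball w ρ := by
        ext z
        rw [mem_ball] at hw
        rw [mem_ball, dist_comm z w]
        exact ⟨fun h => h.1, fun h => ⟨h, hw⟩⟩
      rw [this, vol_ball_eq]
    · rw [indicator_of_notMem hw]
      have : ((fun z => (z, w)) ⁻¹' {q : En n × En n | dist q.2 q.1 < ρ ∧ dist q.2 0 < ρ}) =
          ∅ := by
        rw [eq_empty_iff_forall_notMem]
        intro z h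
        exact hw h.2
      rw [this, measure_empty]
  simp only [e1, e2] at h2
  rw [h2, lintegral_indicator measurableSet_ball, setLIntegral_const]

theorem measurable_radial (ρ : ℝ) (e0 : En n) :
    Measurable (fun t : ℝ => volume (ball (t • e0) ρ ∩ ball 0 ρ)) := by
  have h : Measurable (fun t : ℝ => ((t • e0, (0 : En n)) : En n × En n)) := by fun_prop
  have h2 := (measurable_inter (n := n) ρ).comp h
  simpa only [Function.comp_def] using h2

/-- the radial profile of the autocorrelation -/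
theorem exists_radial (hn : 3 ≤ n) (ρ : ℝ) : ∃ g : ℝ → ℝ≥0∞, Measurable g ∧
    ∀ z : En n, g ‖z‖ = volume (ball z ρ ∩ ball 0 ρ) := by
  obtain ⟨e0, he0⟩ : ∃ e0 : En n, ‖e0‖ = 1 :=
    ⟨EuclideanSpace.single ⟨0, by omega⟩ 1, by simp⟩
  refine ⟨fun t => volume (ball (t • e0) ρ ∩ ball 0 ρ), measurable_radial ρ e0, ?_⟩
  intro z
  apply vol_inter_radial
  rw [norm_smul, norm_norm, he0, mul_one]

/-- Tonelli for averages over small balls -/
theorem tonelli {r0 : ℝ} (ν : Measure (En n)) [SFinite ν] (M : ℝ≥0∞)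
    (hν : ∀ c : En n, ν (ball c r0) ≤ M) (K : En n → ℝ≥0∞) (hKm : Measurable K) (y' : En n) :
    Measurable (fun x => ∫⁻ z, (ball (x - y') r0).indicator K z ∂(volume : Measure (En n))) ∧
    ∫⁻ x, ∫⁻ z, (ball (x - y') r0).indicator K z ∂(volume : Measure (En n)) ∂ν ≤
      M * ∫⁻ z, K z := by
  have hset : MeasurableSet {q : En n × En n | dist q.2 (q.1 - y') < r0} :=
    (isOpen_lt (by fun_prop) (by fun_prop)).measurableSet
  have hunc : (Function.uncurry fun (x z : En n) => (ball (x - y') r0).indicator K z) =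
      {q : En n × En n | dist q.2 (q.1 - y') < r0}.indicator (fun q => K q.2) := by
    funext q
    obtain ⟨x, z⟩ := q
    rfl
  have hm : Measurable (Function.uncurry fun (x z : En n) => (ball (x - y') r0).indicator K z) := by
    rw [hunc]
    exact (hKm.comp measurable_snd).indicator hset
  refine ⟨hm.lintegral_prod_right', ?_⟩
  rw [lintegral_lintegral_swap hm.aemeasurable, ← lintegral_const_mul _ hKm]
  apply lintegral_mono
  intro z
  have e : ∀ x : En n, (ball (x - y') r0).indicator K z =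
      K z * (ball (z + y') r0).indicator (fun _ => 1) x := by
    intro x
    have hiff : z ∈ ball (x - y') r0 ↔ x ∈ ball (z + y') r0 := by
      rw [mem_ball, mem_ball, dist_eq_norm, dist_eq_norm, norm_sub_rev]
      have : x - y' - z = x - (z + y') := by abel
      rw [this]
    by_cases hz : z ∈ ball (x - y') r0
    · rw [indicator_of_mem hz, indicator_of_mem (hiff.1 hz), mul_one]
    · rw [indicator_of_notMem hz, indicator_of_notMem (fun h => hz (hiff.2 h)), mul_zero]
  simp only [e]
  rw [lintegral_const_mul _ (measurable_const.indicator measurableSet_ball),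
    lintegral_indicator measurableSet_ball, setLIntegral_const, one_mul, mul_comm]
  exact mul_le_mul' (hν _) le_rfl

/-- geometry of the small perturbations -/
theorem pointwise {R β r : ℝ} (hR : 0 < R) (hβ : 0 < β)
    (hβ1 : β ≤ 1) (hr0 : 0 < r) (hr1 : r < 1) (y y' v : En n) (hv : ‖v‖ = 1)
    (hy : dist y' y ≤ β * R / 20 / 2) (x z : En n) (hx : R / 10 ≤ dist x y)
    (hz : z ∈ ball (x - y') (β * (1 - r) * R / 40)) :
    pk n r ⟪v, dir (x - y')⟫ ≤ (1 + β) ^ n * pk n r ⟪v, dir z⟫ ∧
    volume (ball x R ∩ ball y R) ≤ volume (ball z ((1 + β) * R) ∩ ball 0 ((1 + β) * R)) := by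
  have h1r : 0 < 1 - r := by linarith
  set r0 : ℝ := β * (1 - r) * R / 40 with hr0def
  have hβR : β * R ≤ R := by nlinarith
  have hβR0 : 0 < β * R := by positivity
  have hr0le : r0 ≤ β * R / 40 := by
    rw [hr0def]
    have : 0 ≤ β * R * r := by positivity
    linarith
  rw [mem_ball, dist_eq_norm] at hz
  have hyy : ‖y - y'‖ ≤ β * R / 40 := by
    rw [← dist_eq_norm, dist_comm]
    linarith
  have hxy' : 3 * R / 40 ≤ ‖x - y'‖ := by
    have h1 : ‖x - y‖ ≤ ‖x - y'‖ + ‖y - y'‖ := by
      have : x - y = (x - y') - (y - y') := by abel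
      rw [this]
      exact norm_sub_le _ _
    rw [dist_eq_norm] at hx
    linarith
  have hxne : x - y' ≠ 0 := by
    intro h
    rw [h, norm_zero] at hxy'
    linarith
  have hz' : ‖(x - y') - z‖ ≤ r0 := by
    rw [norm_sub_rev]
    exact hz.le
  have hzne : z ≠ 0 := by
    intro h
    rw [h, sub_zero] at hz'
    linarith
  constructor
  · have hdir : ‖dir (x - y') - dir z‖ ≤ β * (1 - r) := by
      refine (dir_sub_dir_le hxne hzne).trans ?_
      have hpos : 0 < ‖x - y'‖ := norm_pos_iff.2 hxne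
      rw [div_le_iff₀ hpos]
      have h2 : 2 * ‖(x - y') - z‖ ≤ 2 * r0 := by linarith
      have h3 : 2 * r0 ≤ β * (1 - r) * (3 * R / 40) := by
        rw [hr0def]
        have : 0 ≤ β * (1 - r) * R := by positivity
        linarith
      have h4 : β * (1 - r) * (3 * R / 40) ≤ β * (1 - r) * ‖x - y'‖ :=
        mul_le_mul_of_nonneg_left hxy' (by positivity)
      linarith
    exact pk_le hr0.le hr1 hβ.le hv (norm_dir hxne) (norm_dir hzne) hdir
  · have hsub : ball x R ∩ ball y R ⊆
        (fun w => w + (-y')) ⁻¹' (ball z ((1 + β) * R) ∩ ball 0 ((1 + β) * R)) := by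
      rintro w ⟨hwx, hwy⟩
      rw [mem_ball, dist_eq_norm] at hwx hwy
      refine ⟨?_, ?_⟩
      · show w + -y' ∈ ball z ((1 + β) * R)
        rw [mem_ball, dist_eq_norm]
        have : w + -y' - z = (w - x) + ((x - y') - z) := by abel
        rw [this]
        refine (norm_add_le _ _).trans_lt ?_
        linarith
      · show w + -y' ∈ ball 0 ((1 + β) * R)
        rw [mem_ball, dist_eq_norm, sub_zero]
        have : w + -y' = (w - y) + (y - y') := by abel
        rw [this]
        refine (norm_add_le _ _).trans_lt ?_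
        linarith
    refine (measure_mono hsub).trans (le_of_eq ?_)
    exact measure_preimage_add_right volume (-y') _

theorem measurable_pk_dir (r : ℝ) (v : En n) :
    Measurable (fun z : En n => ENNReal.ofReal (pk n r ⟪v, dir z⟫)) := by
  apply ENNReal.measurable_ofReal.comp
  apply (measurable_pk n r).comp
  exact (measurable_const.inner measurable_dir)

theorem measurable_HH_left (R : ℝ) (y : En n) : Measurable (fun x : En n => HH n R (x, y)) := by
  have h : Measurable (fun x : En n => ((x, y) : En n × En n)) := by fun_prop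
  have h2 := (measurable_HH (n := n) R).comp h
  simpa only [Function.comp_def] using h2

theorem measurable_HH_pk (R r : ℝ) (y y' v : En n) : Measurable (fun x : En n =>
    HH n R (x, y) * ENNReal.ofReal (pk n r ⟪v, dir (x - y')⟫)) := by
  have h : Measurable (fun x : En n => x - y') := by fun_prop
  have h2 := (measurable_pk_dir r v).comp h
  simp only [Function.comp_def] at h2
  exact (measurable_HH_left R y).mul h2

/-- averaged comparison -/
theorem averaged {R β r : ℝ} (hR : 0 < R) (hβ : 0 < β)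
    (hβ1 : β ≤ 1) (hr0 : 0 < r) (hr1 : r < 1) (y y' v : En n) (hv : ‖v‖ = 1)
    (hy : dist y' y ≤ β * R / 20 / 2) (g : ℝ → ℝ≥0∞) (hgm : Measurable g)
    (hg : ∀ z : En n, g ‖z‖ = volume (ball z ((1 + β) * R) ∩ ball 0 ((1 + β) * R))) (x : En n) :
    HH n R (x, y) * ENNReal.ofReal (pk n r ⟪v, dir (x - y')⟫) *
      (volume (ball (0 : En n) R) * volume (ball (0 : En n) (β * (1 - r) * R / 40))) ≤
        ENNReal.ofReal ((1 + β) ^ n) * ∫⁻ z, (ball (x - y') (β * (1 - r) * R / 40)).indicator
          (fun z => ENNReal.ofReal (pk n r ⟪v, dir z⟫) * g ‖z‖) z := by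
  have hKm : Measurable (fun z : En n => ENNReal.ofReal (pk n r ⟪v, dir z⟫) * g ‖z‖) :=
    (measurable_pk_dir r v).mul (hgm.comp measurable_norm)
  by_cases hx : R / 10 ≤ dist x y
  · have hH : HH n R (x, y) * volume (ball (0 : En n) R) = volume (ball x R ∩ ball y R) := by
      unfold HH
      simp only [if_pos hx]
      exact ENNReal.div_mul_cancel (vol_pos hR _) (vol_fin _ _)
    have e1 : HH n R (x, y) * ENNReal.ofReal (pk n r ⟪v, dir (x - y')⟫) *
        (volume (ball (0 : En n) R) * volume (ball (0 : En n) (β * (1 - r) * R / 40))) =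
        volume (ball x R ∩ ball y R) * ENNReal.ofReal (pk n r ⟪v, dir (x - y')⟫) *
          volume (ball (x - y') (β * (1 - r) * R / 40)) := by
      rw [← hH, vol_ball_eq _ (x - y')]
      ring
    rw [e1, lintegral_indicator measurableSet_ball, ← lintegral_const_mul _ hKm,
      ← setLIntegral_const]
    apply setLIntegral_mono (hKm.const_mul _)
    intro z hz
    obtain ⟨h1, h2⟩ := pointwise hR hβ hβ1 hr0 hr1 y y' v hv hy x z hx hz
    rw [← hg] at h2
    calc volume (ball x R ∩ ball y R) * ENNReal.ofReal (pk n r ⟪v, dir (x - y')⟫)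
        ≤ g ‖z‖ * ENNReal.ofReal ((1 + β) ^ n * pk n r ⟪v, dir z⟫) :=
          mul_le_mul' h2 (ENNReal.ofReal_le_ofReal h1)
      _ = ENNReal.ofReal ((1 + β) ^ n) * (ENNReal.ofReal (pk n r ⟪v, dir z⟫) * g ‖z‖) := by
          rw [ENNReal.ofReal_mul (by positivity)]
          ring
  · have hH : HH n R (x, y) = 0 := by
      unfold HH
      simp only [if_neg hx]
    rw [hH, zero_mul, zero_mul]
    exact bot_le

theorem growth (hmean : S_MEAN) (hn : 3 ≤ n) {R β r s : ℝ} (hR : 0 < R) (hβ : 0 < β)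
    (hβ1 : β ≤ 1) (hr : r ∈ Ioo (0 : ℝ) 1) (ν : Measure (En n)) [IsFiniteMeasure ν]
    (hν : ∀ x, ∀ ρ : ℝ, 0 < ρ → ν (closedBall x ρ) ≤ ENNReal.ofReal (ρ ^ s))
    (y y' v : En n) (hv : ‖v‖ = 1) (hy : dist y' y ≤ β * R / 20 / 2) :
    ∫⁻ x, HH n R (x, y) * ENNReal.ofReal (pk n r ⟪v, dir (x - y')⟫) ∂ν ≤
      ENNReal.ofReal (R ^ n * (1 + β) ^ (3 * n) * (β * (1 - r) * R / 40) ^ (s - n)) := by
  obtain ⟨hr0, hr1⟩ := hr
  have h1r : 0 < 1 - r := by linarith
  have hr0pos : 0 < β * (1 - r) * R / 40 := by positivity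
  have hR'pos : 0 < (1 + β) * R := by positivity
  obtain ⟨g, hgm, hgz⟩ := exists_radial hn ((1 + β) * R)
  have hpt := averaged hR hβ hβ1 hr0 hr1 y y' v hv hy g hgm hgz
  have hgint : ∫⁻ z : En n, g ‖z‖ =
      volume (ball (0 : En n) ((1 + β) * R)) * volume (ball (0 : En n) ((1 + β) * R)) := by
    simp only [hgz]
    exact lintegral_inter _
  have hgfin : ∫⁻ z : En n, g ‖z‖ ≠ ∞ := by
    rw [hgint]
    exact ENNReal.mul_ne_top (vol_fin _ _) (vol_fin _ _)
  have hKint := hmean n hn r hr0.le hr1 v hv g hgm hgfin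
  rw [hgint] at hKint
  have hKm : Measurable (fun z : En n => ENNReal.ofReal (pk n r ⟪v, dir z⟫) * g ‖z‖) :=
    (measurable_pk_dir r v).mul (hgm.comp measurable_norm)
  generalize (fun z : En n => ENNReal.ofReal (pk n r ⟪v, dir z⟫) * g ‖z‖) = K at hKint hpt hKm
  obtain ⟨htm, hton⟩ := tonelli (r0 := β * (1 - r) * R / 40) ν
    (ENNReal.ofReal ((β * (1 - r) * R / 40) ^ s))
    (fun c => (measure_mono ball_subset_closedBall).trans (hν _ _ hr0pos)) K hKm y'
  rw [hKint] at hton
  generalize hr0def : β * (1 - r) * R / 40 = r0 at *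
  generalize hR'def : (1 + β) * R = R' at *
  have hm1 := measurable_HH_pk (n := n) R r y y' v
  have htot : (∫⁻ x, HH n R (x, y) * ENNReal.ofReal (pk n r ⟪v, dir (x - y')⟫) ∂ν) *
      (volume (ball (0 : En n) R) * volume (ball (0 : En n) r0)) ≤
      ENNReal.ofReal ((1 + β) ^ n) * (ENNReal.ofReal (r0 ^ s) *
        (volume (ball (0 : En n) R') * volume (ball (0 : En n) R'))) := by
    rw [← lintegral_mul_const _ hm1]
    refine (lintegral_mono hpt).trans ?_
    rw [lintegral_const_mul _ htm]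
    exact mul_le_mul' le_rfl hton
  clear hpt hton htm hm1 hKm hKint hgfin hgint hgz
  generalize (∫⁻ x, HH n R (x, y) * ENNReal.ofReal (pk n r ⟪v, dir (x - y')⟫) ∂ν) = A at htot ⊢
  have hV1 : volume (ball (0 : En n) 1) ≠ 0 := vol_pos one_pos _
  have hV1' : volume (ball (0 : En n) 1) ≠ ∞ := vol_fin _ _
  rw [vol_ball hR, vol_ball hr0pos, vol_ball hR'pos] at htot
  generalize volume (ball (0 : En n) 1) = V at hV1 hV1' htot
  have hVV : V * V ≠ 0 := mul_ne_zero hV1 hV1
  have hVV' : V * V ≠ ∞ := ENNReal.mul_ne_top hV1' hV1'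
  have h5 : (A * ENNReal.ofReal (R ^ n * r0 ^ n)) * (V * V) ≤
      ENNReal.ofReal ((1 + β) ^ n * r0 ^ s * (R' ^ n * R' ^ n)) * (V * V) := by
    have e1 : (A * ENNReal.ofReal (R ^ n * r0 ^ n)) * (V * V) =
        A * (ENNReal.ofReal (R ^ n) * V * (ENNReal.ofReal (r0 ^ n) * V)) := by
      rw [ENNReal.ofReal_mul (by positivity)]
      ring
    have e2 : ENNReal.ofReal ((1 + β) ^ n * r0 ^ s * (R' ^ n * R' ^ n)) * (V * V) =
        ENNReal.ofReal ((1 + β) ^ n) * (ENNReal.ofReal (r0 ^ s) *
          (ENNReal.ofReal (R' ^ n) * V * (ENNReal.ofReal (R' ^ n) * V))) := by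
      rw [ENNReal.ofReal_mul (by positivity), ENNReal.ofReal_mul (by positivity),
        ENNReal.ofReal_mul (by positivity)]
      ring
    rw [e1, e2]
    exact htot
  have h6 := (ENNReal.mul_le_mul_iff_left hVV hVV').1 h5
  have h7 : 0 < R ^ n * r0 ^ n := by positivity
  have h8 : A ≤ ENNReal.ofReal ((1 + β) ^ n * r0 ^ s * (R' ^ n * R' ^ n)) /
      ENNReal.ofReal (R ^ n * r0 ^ n) := by
    rw [ENNReal.le_div_iff_mul_le (Or.inl (by simpa using h7)) (Or.inl ENNReal.ofReal_ne_top)]
    exact h6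
  refine h8.trans (le_of_eq ?_)
  rw [← ENNReal.ofReal_div_of_pos h7]
  congr 1
  rw [Real.rpow_sub hr0pos, Real.rpow_natCast, ← hR'def]
  rw [div_eq_iff h7.ne']
  have : (1 + β) ^ (3 * n) = (1 + β) ^ n * ((1 + β) ^ n * (1 + β) ^ n) := by
    rw [← pow_add, ← pow_add]
    congr 1
    omega
  rw [this, mul_pow]
  field_simp

end Pool.Agent.W646.AG
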